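import Pool.Agent.Y734.Stms2

/-!
Job 396 (helper458 for helper734): the subspace theorem over the rationals along an ultrafilter.
-/

set_option autoImplicit false

namespace Pool.Agent.Y734.USST

open Filter Topology Finset
open Pool.Agent.TH461.SST (SubspaceStmt Places Size Sol)

/-- integral multiples of finitely many rational matrices -/
theorem exists_den {ι : Type} [Fintype ι] {n : ℕ} (B : ι → Matrix (Fin n) (Fin n) ℚ) :
    ∃ (D : ℕ) (M : ι → Matrix (Fin n) (Fin n) ℤ), 1 ≤ D ∧
      ∀ v i j, ((M v i j : ℤ) : ℚ) = D * B v i j := by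
  classical
  set D : ℕ := ∏ v, ∏ i, ∏ j, (B v i j).den with hD
  have hpos : 0 < D := by
    rw [hD]
    exact prod_pos fun v _ => prod_pos fun i _ => prod_pos fun j _ => (B v i j).den_pos
  have hex : ∀ v i j, ∃ m : ℤ, ((m : ℤ) : ℚ) = D * B v i j := by
    intro v i j
    have h1 : (B v i j).den ∣ D := by
      rw [hD]
      exact ((dvd_prod_of_mem (fun j => (B v i j).den) (mem_univ j)).trans
        (dvd_prod_of_mem (fun i => ∏ j, (B v i j).den) (mem_univ i))).trans
        (dvd_prod_of_mem (fun v => ∏ i, ∏ j, (B v i j).den) (mem_univ v))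
    obtain ⟨q, hq⟩ := h1
    refine ⟨(B v i j).num * q, ?_⟩
    have h2 : ((B v i j).den : ℚ) * B v i j = (B v i j).num := by
      rw [mul_comm]; exact Rat.mul_den_eq_num _
    rw [hq]
    push_cast
    rw [← h2]
    ring
  choose M hM using hex
  exact ⟨D, fun v i j => M v i j, hpos, fun v i j => hM v i j⟩

theorem det_ne {n : ℕ} {B : Matrix (Fin n) (Fin n) ℚ} (hB : B.det ≠ 0) {D : ℕ} (hD : 1 ≤ D)
    {M : Matrix (Fin n) (Fin n) ℤ} (hM : ∀ i j, ((M i j : ℤ) : ℚ) = D * B i j) : M.det ≠ 0 := by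
  have h1 : ((M.det : ℤ) : ℚ) = (D : ℚ) ^ n * B.det := by
    have h2 : M.map (Int.castRingHom ℚ) = (D : ℚ) • B := by
      ext i j
      simp [hM i j]
    have h3 : (Int.castRingHom ℚ) M.det = (M.map (Int.castRingHom ℚ)).det := by
      rw [RingHom.map_det]; rfl
    have h4 : ((M.det : ℤ) : ℚ) = (Int.castRingHom ℚ) M.det := rfl
    rw [h4, h3, h2, Matrix.det_smul, Fintype.card_fin]
  intro h
  rw [h] at h1
  have hD' : (D : ℚ) ≠ 0 := by exact_mod_cast (by omega : D ≠ 0)
  have : (D : ℚ) ^ n * B.det = 0 := by rw [← h1]; norm_num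
  rcases mul_eq_zero.1 this with h5 | h5
  · exact pow_ne_zero _ hD' h5
  · exact hB h5

theorem cast_sum {n : ℕ} {B : Matrix (Fin n) (Fin n) ℚ} {D : ℕ}
    {M : Matrix (Fin n) (Fin n) ℤ} (hM : ∀ i j, ((M i j : ℤ) : ℚ) = D * B i j) (x : Fin n → ℤ)
    (i : Fin n) : ((∑ j, M i j * x j : ℤ) : ℚ) = D * ∑ j, B i j * (x j : ℚ) := by
  push_cast
  rw [Finset.mul_sum]
  refine Finset.sum_congr rfl fun j _ => ?_
  rw [hM i j]
  ring

/-- the condition at the real place -/
theorem real_le {n : ℕ} {B : Matrix (Fin n) (Fin n) ℚ} {D : ℕ}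
    {M : Matrix (Fin n) (Fin n) ℤ} (hM : ∀ i j, ((M i j : ℤ) : ℚ) = D * B i j) (x : Fin n → ℤ)
    (i : Fin n) {k w ε h : ℝ}
    (hb : |((∑ j, B i j * (x j : ℚ) : ℚ) : ℝ)| ≤ Real.exp (k * h) * Real.exp (-(w - ε) * h))
    (hD : (D : ℝ) ≤ Real.exp (ε * h)) :
    |((∑ j, M i j * x j : ℤ) : ℝ)| ≤ Real.exp ((k - w + 2 * ε) * h) := by
  have h1 : ((∑ j, M i j * x j : ℤ) : ℝ) = D * ((∑ j, B i j * (x j : ℚ) : ℚ) : ℝ) := by
    have := cast_sum hM x i
    have h2 : (((∑ j, M i j * x j : ℤ) : ℚ) : ℝ) = ((D * ∑ j, B i j * (x j : ℚ) : ℚ) : ℝ) := by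
      rw [this]
    rw [Rat.cast_intCast] at h2
    rw [h2]
    push_cast
    ring
  rw [h1, abs_mul, abs_of_nonneg (by positivity : (0 : ℝ) ≤ D)]
  calc (D : ℝ) * |((∑ j, B i j * (x j : ℚ) : ℚ) : ℝ)|
      ≤ Real.exp (ε * h) * (Real.exp (k * h) * Real.exp (-(w - ε) * h)) :=
        mul_le_mul hD hb (abs_nonneg _) (Real.exp_pos _).le
    _ = Real.exp ((k - w + 2 * ε) * h) := by
        rw [← Real.exp_add, ← Real.exp_add]
        congr 1
        ring

/-- the condition at a prime -/
theorem padic_dvd {n : ℕ} {B : Matrix (Fin n) (Fin n) ℚ} {D : ℕ}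
    {M : Matrix (Fin n) (Fin n) ℤ} (hM : ∀ i j, ((M i j : ℤ) : ℚ) = D * B i j) (x : Fin n → ℤ)
    (i : Fin n) {w ε h : ℝ} (hε : 0 < ε) (hh : 0 ≤ h) {p : ℕ} (hp : p.Prime)
    (hb : ((padicNorm p (∑ j, B i j * (x j : ℚ)) : ℚ) : ℝ) ≤ Real.exp (-(w - ε) * h))
    {e : ℕ} (he : e = ⌊(w - 2 * ε) * h / Real.log p⌋₊) :
    (p : ℤ) ^ e ∣ ∑ j, M i j * x j := by
  have : Fact p.Prime := ⟨hp⟩
  rcases Nat.eq_zero_or_pos e with h0 | h0
  · rw [h0]; simp
  · have hlog : 0 < Real.log p := Real.log_pos (by exact_mod_cast hp.one_lt)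
    have h1 : (e : ℝ) ≤ (w - 2 * ε) * h / Real.log p := by
      rw [he]
      apply Nat.floor_le
      by_contra hneg
      rw [he, Nat.floor_of_nonpos (not_le.1 hneg).le] at h0
      exact lt_irrefl 0 h0
    have h2 : (e : ℝ) * Real.log p ≤ (w - 2 * ε) * h := (le_div_iff₀ hlog).1 h1
    have h3 : ((padicNorm p ((∑ j, M i j * x j : ℤ) : ℚ) : ℚ) : ℝ) ≤ ((p : ℝ) ^ e)⁻¹ := by
      rw [cast_sum hM x i, padicNorm.mul]
      have h4 : padicNorm p ((D : ℕ) : ℚ) ≤ 1 := padicNorm.of_nat (m := D)
      have h4' : ((padicNorm p ((D : ℕ) : ℚ) : ℚ) : ℝ) ≤ 1 := by exact_mod_cast h4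
      push_cast
      calc ((padicNorm p (D : ℚ) : ℚ) : ℝ) * ((padicNorm p (∑ j, B i j * (x j : ℚ)) : ℚ) : ℝ)
          ≤ 1 * Real.exp (-(w - ε) * h) := by
            apply mul_le_mul h4' hb _ zero_le_one
            exact_mod_cast padicNorm.nonneg _
        _ = Real.exp (-(w - ε) * h) := one_mul _
        _ ≤ Real.exp (-((e : ℝ) * Real.log p)) := by
            apply Real.exp_le_exp.2
            have : 0 ≤ ε * h := by positivity
            linarith
        _ = ((p : ℝ) ^ e)⁻¹ := by
            rw [Real.exp_neg, mul_comm, Real.exp_mul, Real.exp_log (by exact_mod_cast hp.pos),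
              Real.rpow_natCast]
    have h5 : padicNorm p ((∑ j, M i j * x j : ℤ) : ℚ) ≤ ((p : ℚ) ^ e)⁻¹ := by
      have : ((padicNorm p ((∑ j, M i j * x j : ℤ) : ℚ) : ℚ) : ℝ) ≤
          ((((p : ℚ) ^ e)⁻¹ : ℚ) : ℝ) := by
        push_cast at h3 ⊢
        exact h3
      exact_mod_cast this
    have h6 := (padicNorm.dvd_iff_norm_le (p := p) (n := e) (z := ∑ j, M i j * x j)).2 (by
      rw [zpow_neg, zpow_natCast]; exact h5)
    exact_mod_cast h6

/-- **The subspace theorem along an ultrafilter.** -/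
theorem usst (hsub : SubspaceStmt) : UsstStmt := by
  classical
  intro S hS U hU h hh n x hx B hB w k hbd
  by_contra hcon
  rw [not_le] at hcon
  have hn : 1 ≤ n := by
    by_contra h0
    have h0' : n = 0 := by omega
    subst h0'
    simp at hcon
  have hn0 : (0 : ℝ) < n := by exact_mod_cast hn
  obtain ⟨D, M, hD, hM⟩ := exists_den B
  set g : ℝ := ∑ v, ∑ i, w v i - k * n with hg
  have hgpos : 0 < g := by rw [hg]; linarith
  set P : ℝ := (S.card : ℝ) + 1 with hP
  have hPpos : 0 < P := by rw [hP]; positivity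
  set ε : ℝ := g / (8 * n * P) with hε
  have hεpos : 0 < ε := by rw [hε]; positivity
  have hεeq : 2 * n * ε * P = g / 4 := by
    rw [hε]; field_simp; ring
  set pr : Fin S.card → ℕ := fun p => ((S.equivFin.symm p : S) : ℕ) with hpr
  have hprP : ∀ p, (pr p).Prime := fun p => hS _ (S.equivFin.symm p).2
  have hsumS : ∀ f : Option S → ℝ, ∑ v, f v =
      f none + ∑ p : Fin S.card, f (some (S.equivFin.symm p)) := by
    intro f
    rw [Fintype.sum_option]
    congr 1
    exact (Equiv.sum_comp S.equivFin.symm (fun q : S => f (some q))).symm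
  set c : ℝ := 1 + k + 2 * ε + ∑ v, ∑ i, |w v i| with hc
  have hwc : ∀ v i, |w v i| ≤ ∑ v, ∑ i, |w v i| := by
    intro v i
    calc |w v i| ≤ ∑ i, |w v i| :=
          single_le_sum (f := fun i => |w v i|) (fun _ _ => abs_nonneg _) (mem_univ i)
      _ ≤ ∑ v, ∑ i, |w v i| :=
          single_le_sum (f := fun v => ∑ i, |w v i|)
            (fun _ _ => sum_nonneg fun _ _ => abs_nonneg _) (mem_univ v)
  have hk0 : (0 : ℝ) ≤ k := Nat.cast_nonneg k
  have hc1 : 1 ≤ c := by
    have : 0 ≤ ∑ v, ∑ i, |w v i| := sum_nonneg fun _ _ => sum_nonneg fun _ _ => abs_nonneg _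
    rw [hc]; linarith
  set e : ℕ → Fin S.card → Fin n → ℕ := fun t p i =>
    ⌊(w (some (S.equivFin.symm p)) i - 2 * ε) * h t / Real.log (pr p)⌋₊ with he
  set A : ℕ → Fin n → ℝ := fun t i => Real.exp ((k - w none i + 2 * ε) * h t) with hA
  set L : ℝ := ∑ p : Fin S.card, Real.log (pr p) with hL
  -- the good times
  have hgood : ∀ᶠ t in (U : Filter ℕ), Size pr c (g / 4) (h t) (e t) (A t) ∧
      Sol (M none) (fun p => M (some (S.equivFin.symm p))) pr (e t) (A t) (x t) := by
    have h1 : ∀ᶠ t in (U : Filter ℕ), 0 ≤ h t := hh.eventually_ge_atTop 0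
    have h2 : ∀ᶠ t in (U : Filter ℕ), n * L / (g / 2) ≤ h t := hh.eventually_ge_atTop _
    have h3 : ∀ᶠ t in (U : Filter ℕ), Real.log D / ε ≤ h t := hh.eventually_ge_atTop _
    have h4 : ∀ᶠ t in (U : Filter ℕ), ∀ v, ∀ i,
        absQ (v.map (fun p : S => (p : ℕ))) (∑ j, B v i j * (x t j : ℚ)) ≤
        (if v = none then Real.exp (k * h t) else 1) * Real.exp (-(w v i - ε) * h t) := by
      rw [eventually_all]
      intro v
      rw [eventually_all]
      intro i
      have h5 := hbd v i ε hεpos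
      cases v <;> exact h5
    filter_upwards [h1, h2, h3, h4] with t h1 h2 h3 h4
    refine ⟨⟨?_, ?_, ?_, ?_⟩, ?_, ?_⟩
    · intro p l
      have hlog : 0 < Real.log (pr p) := Real.log_pos (by exact_mod_cast (hprP p).one_lt)
      rcases le_or_gt ((w (some (S.equivFin.symm p)) l - 2 * ε) * h t / Real.log (pr p)) 0
        with h5 | h5
      · have : e t p l = 0 := Nat.floor_of_nonpos h5
        rw [this]
        simp only [Nat.cast_zero, zero_mul]
        positivity
      · have h6 : (e t p l : ℝ) ≤ (w (some (S.equivFin.symm p)) l - 2 * ε) * h t /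
          Real.log (pr p) := Nat.floor_le h5.le
        have h7 := (le_div_iff₀ hlog).1 h6
        refine h7.trans (mul_le_mul_of_nonneg_right ?_ h1)
        have h8 := hwc (some (S.equivFin.symm p)) l
        have h9 := le_abs_self (w (some (S.equivFin.symm p)) l)
        rw [hc]; linarith
    · intro l
      exact Real.exp_pos _
    · intro l
      rw [hA]
      simp only [Real.log_exp]
      rw [abs_mul, abs_of_nonneg h1]
      apply mul_le_mul_of_nonneg_right _ h1
      have h8 := hwc none l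
      have h9 : |(k : ℝ) - w none l + 2 * ε| ≤ k + |w none l| + 2 * ε := by
        rw [abs_le]
        have h10 := le_abs_self (w none l)
        have h11 := neg_abs_le (w none l)
        constructor <;> linarith
      rw [hc]; linarith
    · have h5 : ∑ l, Real.log (A t l) = (k * n - ∑ l, w none l + 2 * n * ε) * h t := by
        rw [hA]
        simp only [Real.log_exp]
        rw [← Finset.sum_mul]
        congr 1
        rw [Finset.sum_add_distrib, Finset.sum_sub_distrib]
        simp only [Finset.sum_const, Finset.card_univ, Fintype.card_fin, nsmul_eq_mul]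
        ring
      have h6 : ∀ p l, (w (some (S.equivFin.symm p)) l - 2 * ε) * h t - Real.log (pr p) ≤
          (e t p l : ℝ) * Real.log (pr p) := by
        intro p l
        have hlog : 0 < Real.log (pr p) := Real.log_pos (by exact_mod_cast (hprP p).one_lt)
        have h7 : (w (some (S.equivFin.symm p)) l - 2 * ε) * h t / Real.log (pr p) <
          (e t p l : ℝ) + 1 := Nat.lt_floor_add_one _
        have h8 := (div_lt_iff₀ hlog).1 h7
        linarith
      have h7 : ∑ p, ∑ l, ((w (some (S.equivFin.symm p)) l - 2 * ε) * h t - Real.log (pr p)) ≤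
          ∑ p, ∑ l, (e t p l : ℝ) * Real.log (pr p) :=
        Finset.sum_le_sum fun p _ => Finset.sum_le_sum fun l _ => h6 p l
      refine le_trans ?_ h7
      have h8 : ∑ p, ∑ l, ((w (some (S.equivFin.symm p)) l - 2 * ε) * h t - Real.log (pr p)) =
          (∑ p, ∑ l, w (some (S.equivFin.symm p)) l - 2 * n * ε * S.card) * h t - n * L := by
        have h9 : ∀ p : Fin S.card,
            ∑ l, ((w (some (S.equivFin.symm p)) l - 2 * ε) * h t - Real.log (pr p)) =
            (∑ l, w (some (S.equivFin.symm p)) l) * h t - 2 * n * ε * h t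
              - n * Real.log (pr p) := by
          intro p
          rw [Finset.sum_sub_distrib, ← Finset.sum_mul, Finset.sum_sub_distrib]
          simp only [Finset.sum_const, Finset.card_univ, Fintype.card_fin, nsmul_eq_mul]
          ring
        have h10 : ∑ p : Fin S.card, (n : ℝ) * Real.log (pr p) = n * L := by
          rw [hL, Finset.mul_sum]
        rw [Finset.sum_congr rfl fun p _ => h9 p, Finset.sum_sub_distrib, Finset.sum_sub_distrib,
          ← Finset.sum_mul, h10]
        simp only [Finset.sum_const, Finset.card_univ, Fintype.card_fin, nsmul_eq_mul]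
        ring
      rw [h5, h8]
      have h9 : g = ∑ l, w none l + ∑ p, ∑ l, w (some (S.equivFin.symm p)) l - k * n := by
        rw [hg, hsumS]
      have h10 : n * L ≤ g / 2 * h t := by
        have := (div_le_iff₀ (by positivity : (0 : ℝ) < g / 2)).1 h2
        linarith
      have h11 : 2 * n * ε * S.card + 2 * n * ε = g / 4 := by
        rw [← hεeq, hP]; ring
      have h12 : (∑ p, ∑ l, w (some (S.equivFin.symm p)) l - 2 * n * ε * S.card) * h t -
          (k * n - ∑ l, w none l + 2 * n * ε) * h t = (g - g / 4) * h t := by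
        rw [← h11, ← sub_mul]
        congr 1
        rw [h9]
        ring
      nlinarith
    · intro l
      have h5 := h4 none l
      simp only [Option.map_none, absQ, if_true] at h5
      apply real_le (hM none) (x t) l h5
      have h6 : Real.log D ≤ ε * h t := by
        have := (div_le_iff₀ hεpos).1 h3
        linarith
      calc (D : ℝ) = Real.exp (Real.log D) :=
            (Real.exp_log (by exact_mod_cast (by omega : 0 < D))).symm
        _ ≤ _ := Real.exp_le_exp.2 h6
    · intro p l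
      have h5 := h4 (some (S.equivFin.symm p)) l
      simp only [Option.map_some, absQ, reduceCtorEq, if_false, one_mul] at h5
      exact padic_dvd (hM (some (S.equivFin.symm p))) (x t) l hεpos h1 (hprP p) h5 rfl
  -- enumeration of the nonzero vectors
  have : Nonempty {y : Fin n → ℤ // y ≠ 0} :=
    ⟨⟨fun _ => 1, fun h => by
      have := congrFun h (⟨0, by omega⟩ : Fin n)
      simp at this⟩⟩
  obtain ⟨f, hf⟩ := exists_surjective_nat {y : Fin n → ℤ // y ≠ 0}
  have hpick : ∀ j : ℕ, ∃ t, (Size pr c (g / 4) (h t) (e t) (A t) ∧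
      Sol (M none) (fun p => M (some (S.equivFin.symm p))) pr (e t) (A t) (x t)) ∧
      (j : ℝ) ≤ h t ∧ ∀ i ≤ j, ∑ l, (f i).1 l * x t l ≠ 0 := by
    intro j
    have h1 : ∀ᶠ t in (U : Filter ℕ), (j : ℝ) ≤ h t := hh.eventually_ge_atTop _
    have h2 : ∀ᶠ t in (U : Filter ℕ), ∀ i ∈ Finset.Iic j, ∑ l, (f i).1 l * x t l ≠ 0 := by
      rw [eventually_all_finset]
      intro i _
      exact hx (f i).1 (f i).2
    obtain ⟨t, ht⟩ := (hgood.and (h1.and h2)).exists
    exact ⟨t, ht.1, ht.2.1, fun i hi => ht.2.2 i (Finset.mem_Iic.2 hi)⟩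
  choose T hT1 hT2 hT3 using hpick
  obtain ⟨y, hy, hfreq⟩ := hsub n S.card hn (M none) (fun p => M (some (S.equivFin.symm p))) pr
    ⟨det_ne (hB none) hD (hM none), fun p => det_ne (hB _) hD (hM _),
      fun p => (hprP p).two_le, fun p p' hpp => (Nat.coprime_primes (hprP p) (hprP p')).2
        (fun h => hpp (S.equivFin.symm.injective (Subtype.ext h)))⟩
    c (g / 4) hc1 (by positivity) (fun j => h (T j))
    (tendsto_atTop_mono hT2 tendsto_natCast_atTop_atTop) (fun j => e (T j)) (fun j => A (T j))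
    (fun j => (hT1 j).1) (fun j => x (T j))
    (fun j h0 => hT3 j 0 (Nat.zero_le _) (by rw [h0]; simp)) (fun j => (hT1 j).2)
  obtain ⟨i0, hi0⟩ := hf ⟨y, hy⟩
  obtain ⟨j, hj1, hj2⟩ := (hfreq.and_eventually (eventually_ge_atTop i0)).exists
  have := hT3 j i0 hj2
  rw [hi0] at this
  exact this hj1

end Pool.Agent.Y734.USST
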